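import Pool.Agent.Helper21.PctrC

/-!
# Locally graded groups with all proper subgroups pseudocentral: the theorem for a large class

The class `Cls` contains all groups which have an ascending series with locally soluble-by-periodic
factors, all residually finite groups, restrained groups, groups without free abelian subgroups of
infinite rank, and all groups whose nonabelian subgroups contain nonabelian free groups; it is
closed under subgroups and extensions.
-/

set_option autoImplicit false

namespace Pool.Agent.Results.MP_b54334_al.ClassTheorem

open Pool.Agent.Helper21.Pctr

universe u

theorem result (G : Type u) [Group G] (hC : Cls G) (hG : LocallyGraded G)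
    (hP : ∀ H : Subgroup G, H ≠ ⊤ → Pseudocentral H) :
    ⁅commutator G, commutator G⁆ = ⊥ :=
  main hC hG hP

end Pool.Agent.Results.MP_b54334_al.ClassTheorem
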