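import Pool.Agent.Helper21.PctrR

/-!
# Locally graded groups with all proper subgroups pseudocentral: reduction

The problem is equivalent to the problem for groups with two generators which have trivial centre,
are locally indicable, and have only pseudocentral subgroups, with further properties listed in
`Special`.
-/

set_option autoImplicit false

namespace Pool.Agent.Results.MP_b54334_al.Reduction

open Pool.Agent.Helper21.Pctr

universe u

theorem result :
    (∀ (G : Type u) [Group G], LocallyGraded G →
      (∀ H : Subgroup G, H ≠ ⊤ → Pseudocentral H) → ⁅commutator G, commutator G⁆ = ⊥) ↔
    ∀ (L : Type u) [Group L], Special L → Subsingleton L :=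
  reduction

end Pool.Agent.Results.MP_b54334_al.Reduction
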